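import Pool.Agent.Helper67.RV.COErlx
import Pool.Agent.Helper4.RV.GJ
import Pool.Agent.Helper6.RV.LamJ

/-!
# RX12: the final theorem with the local degrees, the subschemes depend on the place of the residue field

After `fin_rl1` of `Pool/Agent/Helper61/RV/FINL.lean` and `fin_ld` of `Pool/Agent/Helper80/LD/FINld.lean` (helper80, helper68,
helper67).
-/

set_option autoImplicit false
set_option linter.unusedSectionVars false

namespace Pool.Agent.SQ.RV

open NumberField Filter Module MvPolynomial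
open Pool.Agent.Helper64.Vojta (Pl nv sn above)
open Pool.Agent.Helper52.Vojta (ldeg)
open Pool.Agent.V2
open Pool.Agent.Chart (fld dg crd hgt)
open Pool.Agent.ZS (HQ mem_HQ)

universe u

private theorem min_rlx {α : Type*} [Finite α] (F : α → ℝ) (h : ∀ a, 0 < F a) : ∃ A : ℝ, 0 < A ∧ ∀ a, A ≤ F a := by
  rcases isEmpty_or_nonempty α with h0 | h0
  · exact ⟨1, one_pos, fun a => (h0.false a).elim⟩
  · obtain ⟨a, ha⟩ := Finite.exists_min F
    exact ⟨F a, h a, ha⟩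

private theorem max_rlx {α : Type*} [Finite α] (F : α → ℝ) : ∃ B : ℝ, 0 ≤ B ∧ ∀ a, F a ≤ B := by
  rcases isEmpty_or_nonempty α with h0 | h0
  · exact ⟨0, le_rfl, fun a => (h0.false a).elim⟩
  · obtain ⟨a, ha⟩ := Finite.exists_max F
    exact ⟨max 0 (F a), le_max_left _ _, fun b => (ha b).trans (le_max_right _ _)⟩

private theorem alg_rlx (h r l W : ℝ) (hr : r ≠ 0) (hl : l ≠ 0) : (h * r) ^ 2 * (W / r) = h * l * h * (r * W / l) := by
  field_simp

section

variable {k : Type u} [Field k] [NumberField k]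

/-! ### points -/

private theorem val_crd_rlx {N : ℕ} (x : Fin (N + 1) → AlgebraicClosure k) (f : MvPolynomial (Fin (N + 1)) k) :
    ((aeval (crd x) f : fld x) : AlgebraicClosure k) = aeval x f := by
  have h1 := MvPolynomial.comp_aeval_apply (f := crd x) (fld x).val f
  exact h1

private theorem val_y_rlx {N : ℕ} (x : Fin (N + 1) → AlgebraicClosure k) (y : Fin (N + 1) → gal x)
    (hy : ∀ j, (y j : AlgebraicClosure k) = x j) (f : MvPolynomial (Fin (N + 1)) k) :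
    ((aeval y f : gal x) : AlgebraicClosure k) = aeval x f := by
  have h1 := MvPolynomial.comp_aeval_apply (f := y) (gal x).val f
  have h2 : (fun j => (gal x).val (y j)) = x := funext hy
  rw [h2] at h1
  exact h1

private theorem ne_iff_rlx {N : ℕ} (x : Fin (N + 1) → AlgebraicClosure k) (y : Fin (N + 1) → gal x)
    (hy : ∀ j, (y j : AlgebraicClosure k) = x j) (f : MvPolynomial (Fin (N + 1)) k) : aeval y f = 0 ↔ aeval x f = 0 := by
  rw [← val_y_rlx x y hy f]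
  exact ZeroMemClass.coe_eq_zero.symm

private theorem crd_iff_rlx {N : ℕ} (x : Fin (N + 1) → AlgebraicClosure k) (f : MvPolynomial (Fin (N + 1)) k) :
    aeval (crd x) f = 0 ↔ aeval x f = 0 := by
  rw [← val_crd_rlx x f]
  exact ZeroMemClass.coe_eq_zero.symm

/-! ### representatives -/

private theorem exists_rep_rlx {G : Type} [Group G] [Fintype G] (Hs : Subgroup G) :
    ∃ ρ : Fin Hs.index → G, ∀ g, ∃! j, (ρ j)⁻¹ * g ∈ Hs := by
  classical
  have hf : Finite (G ⧸ Hs) := inferInstance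
  have e : (G ⧸ Hs) ≃ Fin Hs.index := Finite.equivFinOfCardEq (by rw [Subgroup.index_eq_card])
  refine ⟨fun j => (e.symm j).out, fun g => ⟨e (QuotientGroup.mk g), ?_, ?_⟩⟩
  · simp only [Equiv.symm_apply_apply]
    rw [← QuotientGroup.eq, QuotientGroup.out_eq']
  · intro j hj
    simp only at hj
    rw [← QuotientGroup.eq, QuotientGroup.out_eq'] at hj
    rw [← hj, Equiv.apply_symm_apply]

/-- the elements over a set of cosets -/
private theorem card_rep_rlx {G : Type} [Group G] [Fintype G] (Hs : Subgroup G) {r : ℕ} (ρ : Fin r → G)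
    (hρ : ∀ g, ∃! j, (ρ j)⁻¹ * g ∈ Hs) {P : Type*} (p : G → P) (hp : ∀ g, ∀ h ∈ Hs, p (g * h) = p g) (w : P)
    [DecidableEq P] :
    Nat.card {g // p g = w} = Nat.card Hs * (Finset.univ.filter fun j => p (ρ j) = w).card := by
  classical
  have e : {g // p g = w} ≃ {j // p (ρ j) = w} × Hs :=
    { toFun := fun g => (⟨(hρ g.1).choose, by
          have h1 := (hρ g.1).choose_spec.1
          have h2 := hp (ρ (hρ g.1).choose) _ h1
          rw [mul_inv_cancel_left] at h2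
          rw [← h2]
          exact g.2⟩, ⟨(ρ (hρ g.1).choose)⁻¹ * g.1, (hρ g.1).choose_spec.1⟩)
      invFun := fun q => ⟨ρ q.1.1 * q.2.1, by
          rw [hp _ _ q.2.2]
          exact q.1.2⟩
      left_inv := fun g => Subtype.ext (mul_inv_cancel_left _ _)
      right_inv := fun q => by
        obtain ⟨⟨j, hj⟩, h⟩ := q
        have h1 : (hρ (ρ j * h.1)).choose = j := by
          refine ((hρ (ρ j * h.1)).choose_spec.2 j ?_).symm
          show (ρ j)⁻¹ * (ρ j * h.1) ∈ Hs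
          rw [inv_mul_cancel_left]
          exact h.2
        ext
        · simp only [h1]
        · simp only [h1, inv_mul_cancel_left] }
  rw [Nat.card_congr e, Nat.card_prod, mul_comm]
  congr 1
  rw [Nat.card_eq_fintype_card, Fintype.card_subtype]

end

/-- RX12 (from RX10b) -/
theorem fin_rlx {k : Type u} [Field k] [NumberField k] {N q e r : ℕ} (hr : 0 < r)
    (P : Ideal (MvPolynomial (Fin (N + 1)) k)) [P.IsPrime] (hP : ∀ p ∈ P, ∀ m, homogeneousComponent m p ∈ P)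
    (d : Fin q → Fin e → ℕ) (f : Fin q → Fin e → MvPolynomial (Fin (N + 1)) k) (hf : ∀ i j, (f i j).IsHomogeneous (d i j))
    (c : Fin q → ℝ → ℝ) (hc : ∀ i ρ, 0 < ρ → ρ ≤ 1 → 0 < c i ρ ∧ ∀ δ : ℝ, 0 < δ → ∃ θ : ℝ, 0 ≤ θ ∧ ∀ᶠ m : ℕ in atTop,
      (c i ρ + (1 - ρ) * θ - δ) * (m * hilb P m) ≤
        ∑ x ∈ Finset.range ⌊θ * m⌋₊, (dimf P (sat (P ⊔ idl f i ^ (x + 1))) m : ℝ))
    {ε : ℝ} (hε : 0 < ε) :
    ∃ Q : MvPolynomial (Fin (N + 1)) k, Q ∉ P ∧ (∃ e, Q.IsHomogeneous e) ∧ ∀ S : Finset (Pl k), ∃ C : ℝ,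
      ∀ x : Fin (N + 1) → AlgebraicClosure k, (∃ j, x j = 1) → (∀ p ∈ P, aeval x p = 0) → dg x ≤ r →
        (∀ i, ∃ j, aeval (crd x) (f i j) ≠ 0) → aeval x Q ≠ 0 →
        ∀ T : Pl (fld x) → Finset (Fin q), (∀ w, GenPos P (idl f) (T w)) →
        ∀ w : Pl k → Pl (fld x), (∀ v, w v ∈ above (fld x) v) →
        ∑ ν ∈ S, max (∑ w ∈ above (fld x) ν, ∑ i ∈ T w, c i (ldeg ν w / dg x) * (dg x / ldeg ν w) * lamJ (d i) (f i) x w)
          (max ((∑ i ∈ T (w ν), c i 1 * lamJ (d i) (f i) x (w ν)) / dg x)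
            ((∑ w ∈ above (fld x) ν, ∑ i ∈ T w, c i 1 * lamJ (d i) (f i) x w) / gfam x ν)) ≤ (1 + ε) * hgt x + C := by
  classical
  have hrR : (0 : ℝ) < r := by exact_mod_cast hr
  obtain ⟨η, hη0, hη1, hηε⟩ : ∃ η : ℝ, 0 < η ∧ η < 1 ∧ (1 - η) * (1 + ε) = 1 + ε / 2 := by
    refine ⟨ε / (2 * (1 + ε)), by positivity, ?_, ?_⟩
    · rw [div_lt_one (by positivity)]
      linarith
    · have h1 : (1 : ℝ) + ε ≠ 0 := by positivity
      field_simp
      ring
  have hη1' : 0 < 1 - η := by linarith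
  -- the ratios
  obtain ⟨ρz, hρ0, hρ1, hρn, hρs⟩ : ∃ ρz : Option (Fin (r + 1) × Fin (r + 1)) → ℝ, (∀ z, 0 < ρz z) ∧ (∀ z, ρz z ≤ 1) ∧
      ρz none = 1 ∧ ∀ z : Fin (r + 1) × Fin (r + 1), 0 < (z.1 : ℕ) → (z.1 : ℕ) ≤ z.2 →
        ρz (some z) = ((z.1 : ℕ) : ℝ) / (z.2 : ℕ) := by
    have h1 : ∀ z : Option (Fin (r + 1) × Fin (r + 1)), ∃ ρ : ℝ, 0 < ρ ∧ ρ ≤ 1 ∧ (z = none → ρ = 1) ∧
        ∀ z', z = some z' → 0 < (z'.1 : ℕ) → (z'.1 : ℕ) ≤ z'.2 → ρ = ((z'.1 : ℕ) : ℝ) / (z'.2 : ℕ) := by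
      intro z
      cases z with
      | none => exact ⟨1, one_pos, le_rfl, fun _ => rfl, fun z' h => absurd h (by simp)⟩
      | some z =>
        by_cases hz : 0 < (z.1 : ℕ) ∧ (z.1 : ℕ) ≤ z.2
        · have h1 : (0 : ℝ) < (z.1 : ℕ) := by exact_mod_cast hz.1
          have h2 : ((z.1 : ℕ) : ℝ) ≤ (z.2 : ℕ) := by exact_mod_cast hz.2
          refine ⟨((z.1 : ℕ) : ℝ) / (z.2 : ℕ), div_pos h1 (by linarith), ?_, fun h => absurd h (by simp), fun z' h _ _ => ?_⟩
          · rwa [div_le_one (by linarith)]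
          · obtain rfl : z = z' := Option.some_injective _ h
            rfl
        · refine ⟨1, one_pos, le_rfl, fun _ => rfl, fun z' h h1 h2 => ?_⟩
          obtain rfl : z = z' := Option.some_injective _ h
          exact absurd ⟨h1, h2⟩ hz
    choose ρz h2 h3 h4 h5 using h1
    exact ⟨ρz, h2, h3, h4 none rfl, fun z => h5 (some z) z rfl⟩
  -- the truncations
  have hth : ∀ (z : Option (Fin (r + 1) × Fin (r + 1))) (i : Fin q), ∃ γ θ : ℝ, 0 ≤ γ ∧ 0 ≤ θ ∧
      (∀ᶠ m : ℕ in atTop, γ * (m * hilb P m) ≤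
        ∑ x ∈ Finset.range ⌊θ * m⌋₊, (dimf P (sat (P ⊔ idl f i ^ (x + 1))) m : ℝ)) ∧
      γ - (1 - ρz z) * θ = (1 - η) * c i (ρz z) := by
    intro z i
    obtain ⟨h2, h3⟩ := hc i (ρz z) (hρ0 z) (hρ1 z)
    obtain ⟨θ, h4, h5⟩ := h3 (η * c i (ρz z)) (mul_pos hη0 h2)
    refine ⟨(1 - η) * c i (ρz z) + (1 - ρz z) * θ, θ, ?_, h4, ?_, by ring⟩
    · have h6 := mul_pos hη1' h2
      have h7 := mul_nonneg (sub_nonneg.2 (hρ1 z)) h4
      linarith
    · have h6 : c i (ρz z) + (1 - ρz z) * θ - η * c i (ρz z) = (1 - η) * c i (ρz z) + (1 - ρz z) * θ := by ring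
      rw [h6] at h5
      exact h5
  choose γ θ hγ hθ hγθ hγe using hth
  have hγn : ∀ i, γ none i = (1 - η) * c i 1 := by
    intro i
    have h1 := hγe none i
    rw [hρn] at h1
    linarith
  obtain ⟨A₀, hA0, hA⟩ := min_rlx (fun z : Option (Fin (r + 1) × Fin (r + 1)) × Fin q => (1 - η) * c z.2 (ρz z.1))
    fun z => mul_pos hη1' (hc z.2 _ (hρ0 z.1) (hρ1 z.1)).1
  obtain ⟨B, hB0, hB⟩ := max_rlx (fun z : Option (Fin (r + 1) × Fin (r + 1)) × Fin q => c z.2 (ρz z.1))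
  have hB1 : ∀ i, c i 1 ≤ B := by
    intro i
    have h1 := hB (none, i)
    simp only [hρn] at h1
    exact h1
  have hc1 : ∀ i, 0 < c i 1 := fun i => (hc i 1 one_pos le_rfl).1
  obtain ⟨Q, hQ, hQh, hcoreQ⟩ := core_erlx P hP d f hf γ θ hγ hθ hγθ none hA0
    (fun i => by
      have h1 := hA (none, i)
      simp only [hρn] at h1
      rw [hγn i]
      exact h1) (half_pos hε)
  refine ⟨Q, hQ, hQh, fun S => ?_⟩
  by_contra hcon
  have hbad : ∀ C : ℝ, ∃ x : Fin (N + 1) → AlgebraicClosure k, (∃ j, x j = 1) ∧ (∀ p ∈ P, aeval x p = 0) ∧ dg x ≤ r ∧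
        (∀ i, ∃ j, aeval (crd x) (f i j) ≠ 0) ∧ aeval x Q ≠ 0 ∧
        ∃ T1 : Pl (fld x) → Finset (Fin q), (∀ w, GenPos P (idl f) (T1 w)) ∧
        ∃ w : Pl k → Pl (fld x), (∀ v, w v ∈ above (fld x) v) ∧
        (1 + ε) * hgt x + C < ∑ ν ∈ S,
          max (∑ w ∈ above (fld x) ν, ∑ i ∈ T1 w, c i (ldeg ν w / dg x) * (dg x / ldeg ν w) * lamJ (d i) (f i) x w)
          (max ((∑ i ∈ T1 (w ν), c i 1 * lamJ (d i) (f i) x (w ν)) / dg x)
            ((∑ w ∈ above (fld x) ν, ∑ i ∈ T1 w, c i 1 * lamJ (d i) (f i) x w) / gfam x ν)) := by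
    intro C
    by_contra h
    apply hcon
    refine ⟨C, fun x h1 h2 h3 h4 h5 T1 hT1 w hw => ?_⟩
    by_contra h6
    exact h ⟨x, h1, h2, h3, h4, h5, T1, hT1, w, hw, not_le.1 h6⟩
  choose x hx1 hxI hxr hxf hxQ T1 hT1 w hw hbig using fun m : ℕ => hbad m
  obtain ⟨G, gG, fG, Hs, R, g₁, φ, hφ, hHd, hKd, y, M, s, p, hy, hQ', hH, hHy, hRp, hpg₁, hpa, hpc, hph, hpM, hlW⟩ :=
    exists_seq_ld x hx1 hxr w hw S
  set cG : ℝ := (Fintype.card G : ℝ) with hcG
  have hc0 : 0 < cG := by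
    rw [hcG]
    exact_mod_cast Fintype.card_pos
  have hcG1 : 1 ≤ cG := by
    rw [hcG]
    exact_mod_cast Nat.succ_le_of_lt (Fintype.card_pos (α := G))
  have hφa : ∀ a, a ≤ φ a := fun a => hφ.le_apply
  have hy1 : ∀ a, ∃ j, y a j = 1 := by
    intro a
    obtain ⟨j, hj⟩ := hx1 (φ a)
    refine ⟨j, Subtype.ext ?_⟩
    rw [hy a j, hj]
    rfl
  have hyx : ∀ a (p : MvPolynomial (Fin (N + 1)) k), aeval (y a) p = 0 ↔ aeval (x (φ a)) p = 0 :=
    fun a p => ne_iff_rlx _ _ (hy a) p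
  have hyf : ∀ a, ∀ i, ∃ j, aeval (y a) (f i j) ≠ 0 := by
    intro a i
    obtain ⟨j, hj⟩ := hxf (φ a) i
    exact ⟨j, fun h => hj ((crd_iff_rlx _ _).2 ((hyx a _).1 h))⟩
  -- the index
  have hHs0 : 0 < Nat.card Hs := Nat.card_pos
  have hHi : Nat.card Hs * Hs.index = Fintype.card G := by
    rw [Subgroup.card_mul_index, Nat.card_eq_fintype_card]
  have hdg : ∀ a, dg (x (φ a)) = Hs.index := by
    intro a
    exact Nat.eq_of_mul_eq_mul_left hHs0 ((hHd a).trans hHi.symm)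
  set r' : ℕ := Hs.index with hr'
  have hr'r : r' ≤ r := by
    rw [← hdg 0]
    exact hxr _
  have hr'0 : 0 < r' := by
    rcases Nat.eq_zero_or_pos r' with h | h
    · rw [h, mul_zero] at hHi
      exact absurd hHi.symm Fintype.card_ne_zero
    · exact h
  have hr'R0 : (0 : ℝ) < r' := by exact_mod_cast hr'0
  have hr'R1 : (1 : ℝ) ≤ r' := by exact_mod_cast hr'0
  have hη0 : (0 : ℝ) < Nat.card Hs := by exact_mod_cast hHs0
  have hHR : (Nat.card Hs : ℝ) * r' = cG := by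
    rw [hcG]
    exact_mod_cast hHi
  -- local degrees
  have hl0 : ∀ (a : ℕ) (v : Pl k), ∀ w ∈ above (fld (x (φ a))) v, (0 : ℝ) < ldeg v w := by
    intro a v w hw
    exact_mod_cast Nat.pos_of_ne_zero (Pool.Agent.QP.ldeg_ne_zero hw)
  have hlsum : ∀ (a : ℕ) (v : Pl k), ∑ w ∈ above (fld (x (φ a))) v, ldeg v w = r' := by
    intro a v
    have h1 := Pool.Agent.Helper52.Vojta.sum_ldeg (L' := fld (x (φ a))) v
    have h2 : finrank k (fld (x (φ a))) = r' := hdg a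
    rw [h2] at h1
    exact h1
  have hl1n : ∀ (a : ℕ) (v : Pl k), ∀ w ∈ above (fld (x (φ a))) v, ldeg v w ≤ r' := by
    intro a v w hw
    rw [← hlsum a v]
    exact Finset.single_le_sum (f := fun w => ldeg v w) (fun w _ => Nat.zero_le _) hw
  have hl1 : ∀ (a : ℕ) (v : Pl k), ∀ w ∈ above (fld (x (φ a))) v, (ldeg v w : ℝ) ≤ r' := by
    intro a v w hw
    exact_mod_cast hl1n a v w hw
  have hcB : ∀ (a : ℕ) (v : Pl k) (i : Fin q), ∀ w ∈ above (fld (x (φ a))) v,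
      0 < c i (ldeg v w / r') ∧ c i (ldeg v w / r') ≤ B := by
    intro a v i w hw
    have h0 := Nat.pos_of_ne_zero (Pool.Agent.QP.ldeg_ne_zero hw)
    have h1 := hρs (⟨ldeg v w, Nat.lt_succ_of_le ((hl1n a v w hw).trans hr'r)⟩, ⟨r', Nat.lt_succ_of_le hr'r⟩) h0
      (hl1n a v w hw)
    have h2 := hB (some (⟨ldeg v w, Nat.lt_succ_of_le ((hl1n a v w hw).trans hr'r)⟩, ⟨r', Nat.lt_succ_of_le hr'r⟩), i)
    have h3 := (hc i _ (hρ0 (some (⟨ldeg v w, Nat.lt_succ_of_le ((hl1n a v w hw).trans hr'r)⟩,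
      ⟨r', Nat.lt_succ_of_le hr'r⟩))) (hρ1 _)).1
    simp only [h1] at h2 h3
    exact ⟨h3, h2⟩
  -- the local values
  obtain ⟨Γ, hΓ⟩ : ∃ Γ : ℕ → Pl k → Fin q → G → ℝ, Γ = fun a v i g => gamJ (s a) (M a) (y a) (d i) (f i) v g := ⟨_, rfl⟩
  have hΓ' : ∀ a v i g, gamJ (s a) (M a) (y a) (d i) (f i) v g = Γ a v i g := fun a v i g => by rw [hΓ]
  have hWΓ : ∀ a v i g, r' * lamJ (d i) (f i) (x (φ a)) (p a v g) = ldeg v (p a v g) * Γ a v i g := by
    intro a v i g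
    have h1 := lamJ_gamJ (x (φ a)) (hx1 (φ a)) (y a) (hy a) (M a) (s a) (hQ' a) v g (p a v g) (hpa a v g)
      (fun d f hf => hlW a v g d f hf) (d i) (f i) (hxf _ i)
    rw [hdg a, hΓ'] at h1
    exact h1
  have hWΓ' : ∀ a v i g, lamJ (d i) (f i) (x (φ a)) (p a v g) = ldeg v (p a v g) / r' * Γ a v i g := by
    intro a v i g
    rw [div_mul_eq_mul_div, ← hWΓ a v i g, mul_div_cancel_left₀ _ hr'R0.ne']
  have hΓW : ∀ a v i g, Γ a v i g = r' / ldeg v (p a v g) * lamJ (d i) (f i) (x (φ a)) (p a v g) := by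
    intro a v i g
    rw [div_mul_eq_mul_div, hWΓ a v i g, mul_div_cancel_left₀ _ (hl0 a v _ (hpa a v g)).ne']
  have hsurj : ∀ a v, ∀ w ∈ above (fld (x (φ a))) v, ∃ g, p a v g = w := by
    intro a v w hw
    have h11 : 0 < Nat.card {g // p a v g = w} := by
      rw [hpc a v w hw]
      exact Nat.mul_pos hHs0 (Nat.pos_of_ne_zero (Pool.Agent.QP.ldeg_ne_zero hw))
    obtain ⟨⟨g, hg⟩⟩ := (Nat.card_pos_iff.1 h11).1
    exact ⟨g, hg⟩
  have hpc' : ∀ a v, ∀ w ∈ above (fld (x (φ a))) v, ((Finset.univ.filter fun g => p a v g = w).card : ℝ) =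
      Nat.card Hs * ldeg v w := by
    intro a v w hw
    have h1 := hpc a v w hw
    rw [Nat.card_eq_fintype_card, Fintype.card_subtype] at h1
    exact_mod_cast h1
  have hGX : ∀ a v, cG * ∑ w ∈ above (fld (x (φ a))) v, ∑ i ∈ T1 (φ a) w, c i 1 * lamJ (d i) (f i) (x (φ a)) w =
      ∑ g, ∑ i ∈ T1 (φ a) (p a v g), c i 1 * Γ a v i g := by
    intro a v
    have hmap : ∀ g ∈ (Finset.univ : Finset G), p a v g ∈ above (fld (x (φ a))) v := fun g _ => hpa a v g
    rw [← Finset.sum_fiberwise_of_maps_to hmap, Finset.mul_sum]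
    refine Finset.sum_congr rfl fun w hw => ?_
    have h1 : ∀ g ∈ Finset.univ.filter (fun g => p a v g = w), ∑ i ∈ T1 (φ a) (p a v g), c i 1 * Γ a v i g =
        r' / ldeg v w * ∑ i ∈ T1 (φ a) w, c i 1 * lamJ (d i) (f i) (x (φ a)) w := by
      intro g hg
      rw [Finset.mul_sum, (Finset.mem_filter.1 hg).2]
      refine Finset.sum_congr rfl fun i _ => ?_
      have h2 := hΓW a v i g
      rw [(Finset.mem_filter.1 hg).2] at h2
      rw [h2, mul_left_comm]
    rw [Finset.sum_congr rfl h1, Finset.sum_const, nsmul_eq_mul, hpc' a v w hw, ← hHR]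
    have := (hl0 a v w hw).ne'
    field_simp
  -- the constants
  have hg0 : ∀ i, ∃ C : ℝ, 0 ≤ C ∧ ∀ v ∈ S, ∀ a g, -C ≤ Γ a v i g := by
    intro i
    obtain ⟨C, h1, h2⟩ := gamJ_ge G (d i) (f i) (hf i) S
    refine ⟨C, h1, fun v hv a g => ?_⟩
    rw [← hΓ']
    exact h2 _ (s a) (M a) (hQ' a) (y a) (hy1 a) (hyf a i) v hv g
  choose C0 hC00 hC0 using hg0
  obtain ⟨E, hE⟩ : ∃ E : ℕ → Pl k → ℝ, E = fun a v => ∑ g, ∑ i, (Γ a v i g + C0 i) := ⟨_, rfl⟩
  have hEe : ∀ a v, ∑ g, ∑ i, (Γ a v i g + C0 i) = E a v := fun a v => by rw [hE]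
  have hEi0 : ∀ a, ∀ v ∈ S, ∀ i g, 0 ≤ Γ a v i g + C0 i := by
    intro a v hv i g
    linarith [hC0 i v hv a g]
  have hEg : ∀ a, ∀ v ∈ S, ∀ g, ∑ i, (Γ a v i g + C0 i) ≤ E a v := by
    intro a v hv g
    rw [← hEe]
    exact Finset.single_le_sum (f := fun g => ∑ i, (Γ a v i g + C0 i))
      (fun g _ => Finset.sum_nonneg fun i _ => hEi0 a v hv i g) (Finset.mem_univ g)
  have hE0 : ∀ a, ∀ v ∈ S, 0 ≤ E a v := fun a v hv =>
    (Finset.sum_nonneg fun i _ => hEi0 a v hv i 1).trans (hEg a v hv 1)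
  -- a sum over a subset of the indices
  have hsub : ∀ a, ∀ v ∈ S, ∀ (J : Finset (Fin q)) (b : Fin q → ℝ) (g : G), (∀ i, 0 < b i ∧ b i ≤ B) →
      ∑ i ∈ J, b i * Γ a v i g ≤ B * ∑ i, (Γ a v i g + C0 i) := by
    intro a v hv J b g hb
    rw [Finset.mul_sum]
    refine (Finset.sum_le_sum fun i _ => ?_).trans (Finset.sum_le_sum_of_subset_of_nonneg (Finset.subset_univ J)
      fun i _ _ => mul_nonneg hB0 (hEi0 a v hv i g))
    calc b i * Γ a v i g ≤ b i * (Γ a v i g + C0 i) := mul_le_mul_of_nonneg_left (by linarith [hC00 i]) (hb i).1.le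
      _ ≤ B * (Γ a v i g + C0 i) := mul_le_mul_of_nonneg_right (hb i).2 (hEi0 a v hv i g)
  have hgf1 : ∀ a, ∀ v ∈ S, (1 : ℝ) ≤ gfam (x (φ a)) v := by
    intro a v hv
    have h1 := hKd a v hv
    rcases Nat.eq_zero_or_pos (gfam (x (φ a)) v) with h | h
    · rw [h, mul_zero] at h1
      exact absurd h1.symm Fintype.card_ne_zero
    · exact_mod_cast h
  -- the terms
  let U0 : ℕ → Pl k → ℝ := fun a v => ∑ w ∈ above (fld (x (φ a))) v, ∑ i ∈ T1 (φ a) w,
    c i (ldeg v w / dg (x (φ a))) * (dg (x (φ a)) / ldeg v w) * lamJ (d i) (f i) (x (φ a)) w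
  let U1 : ℕ → Pl k → ℝ := fun a v => (∑ i ∈ T1 (φ a) (w (φ a) v), c i 1 * lamJ (d i) (f i) (x (φ a)) (w (φ a) v)) /
    dg (x (φ a))
  let U2 : ℕ → Pl k → ℝ := fun a v => (∑ w ∈ above (fld (x (φ a))) v, ∑ i ∈ T1 (φ a) w, c i 1 *
    lamJ (d i) (f i) (x (φ a)) w) / gfam (x (φ a)) v
  have hU0 : ∀ a v, U0 a v = ∑ w ∈ above (fld (x (φ a))) v, ∑ i ∈ T1 (φ a) w,
      c i (ldeg v w / r') * (r' / ldeg v w * lamJ (d i) (f i) (x (φ a)) w) := by
    intro a v
    show ∑ w ∈ above (fld (x (φ a))) v, ∑ i ∈ T1 (φ a) w,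
      c i (ldeg v w / dg (x (φ a))) * (dg (x (φ a)) / ldeg v w) * lamJ (d i) (f i) (x (φ a)) w = _
    rw [hdg a]
    exact Finset.sum_congr rfl fun w _ => Finset.sum_congr rfl fun i _ => mul_assoc _ _ _
  have hU1 : ∀ a v, U1 a v = (∑ i ∈ T1 (φ a) (w (φ a) v), c i 1 * lamJ (d i) (f i) (x (φ a)) (w (φ a) v)) / r' := by
    intro a v
    show (∑ i ∈ T1 (φ a) (w (φ a) v), c i 1 * lamJ (d i) (f i) (x (φ a)) (w (φ a) v)) / dg (x (φ a)) = _
    rw [hdg a]
  have hU2 : ∀ a v, U2 a v = (∑ g, ∑ i ∈ T1 (φ a) (p a v g), c i 1 * Γ a v i g) / cG / gfam (x (φ a)) v := by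
    intro a v
    show (∑ w ∈ above (fld (x (φ a))) v, ∑ i ∈ T1 (φ a) w, c i 1 * lamJ (d i) (f i) (x (φ a)) w) / gfam (x (φ a)) v = _
    rw [← hGX a v, mul_div_cancel_left₀ _ hc0.ne']
  have hB0E : ∀ a, ∀ v ∈ S, U0 a v ≤ B * E a v := by
    intro a v hv
    rw [hU0, ← hEe]
    have hmap : ∀ g ∈ (Finset.univ : Finset G), p a v g ∈ above (fld (x (φ a))) v := fun g _ => hpa a v g
    rw [← Finset.sum_fiberwise_of_maps_to hmap, Finset.mul_sum]
    refine Finset.sum_le_sum fun w hw => ?_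
    obtain ⟨g, hg⟩ := hsurj a v w hw
    have h1 : ∑ i, (Γ a v i g + C0 i) ≤ ∑ g ∈ Finset.univ.filter (fun g => p a v g = w),
        ∑ i, (Γ a v i g + C0 i) :=
      Finset.single_le_sum (f := fun g => ∑ i, (Γ a v i g + C0 i))
        (fun g _ => Finset.sum_nonneg fun i _ => hEi0 a v hv i g) (Finset.mem_filter.2 ⟨Finset.mem_univ g, hg⟩)
    refine le_trans ?_ ((hsub a v hv (T1 (φ a) w) (fun i => c i (ldeg v w / r')) g fun i => hcB a v i w hw).trans
      (mul_le_mul_of_nonneg_left h1 hB0))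
    refine Finset.sum_le_sum fun i hi => ?_
    have h2 := hΓW a v i g
    rw [hg] at h2
    rw [← h2]
  have hB1E : ∀ a, ∀ v ∈ S, U1 a v ≤ B * E a v := by
    intro a v hv
    have hBE : 0 ≤ B * E a v := mul_nonneg hB0 (hE0 a v hv)
    rw [hU1]
    refine (div_le_div_of_nonneg_right ?_ hr'R0.le).trans (div_le_self hBE hr'R1)
    have h7 : (ldeg v (w (φ a) v) : ℝ) / r' ≤ 1 := by
      rw [div_le_one hr'R0]
      exact hl1 a v _ (hw (φ a) v)
    have h8 : (0 : ℝ) ≤ (ldeg v (w (φ a) v) : ℝ) / r' := div_nonneg (Nat.cast_nonneg _) hr'R0.le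
    have h9 : ∑ i ∈ T1 (φ a) (w (φ a) v), c i 1 * lamJ (d i) (f i) (x (φ a)) (w (φ a) v) =
        ldeg v (w (φ a) v) / r' * ∑ i ∈ T1 (φ a) (w (φ a) v), c i 1 * Γ a v i (g₁ v) := by
      rw [Finset.mul_sum]
      refine Finset.sum_congr rfl fun i _ => ?_
      have h2 := hWΓ' a v i (g₁ v)
      rw [hpg₁ a v hv] at h2
      rw [h2, mul_left_comm]
    rw [h9]
    refine (mul_le_mul_of_nonneg_left (hsub a v hv (T1 (φ a) (w (φ a) v)) (fun i => c i 1) (g₁ v)
      fun i => ⟨hc1 i, hB1 i⟩) h8).trans ?_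
    refine (mul_le_of_le_one_left (mul_nonneg hB0 (Finset.sum_nonneg fun i _ => hEi0 a v hv i (g₁ v))) h7).trans ?_
    exact mul_le_mul_of_nonneg_left (hEg a v hv (g₁ v)) hB0
  have hB2E : ∀ a, ∀ v ∈ S, U2 a v ≤ B * E a v := by
    intro a v hv
    have hBE : 0 ≤ B * E a v := mul_nonneg hB0 (hE0 a v hv)
    rw [hU2 a v]
    have h1 : ∑ g, ∑ i ∈ T1 (φ a) (p a v g), c i 1 * Γ a v i g ≤ B * E a v := by
      rw [← hEe, Finset.mul_sum]
      exact Finset.sum_le_sum fun g _ => hsub a v hv _ (fun i => c i 1) g fun i => ⟨hc1 i, hB1 i⟩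
    exact (div_le_div_of_nonneg_right ((div_le_div_of_nonneg_right h1 hc0.le).trans (div_le_self hBE hcG1))
      (Nat.cast_nonneg _)).trans (div_le_self hBE (hgf1 a v hv))
  set T : ℕ → Pl k → ℝ := fun a v => max (U0 a v) (max (U1 a v) (U2 a v)) with hT
  have hbig' : ∀ a, (1 + ε) * hgt (x (φ a)) + φ a < ∑ v ∈ S, T a v := fun a => hbig (φ a)
  have hTE : ∀ a, ∀ v ∈ S, T a v ≤ B * E a v := fun a v hv =>
    max_le (hB0E a v hv) (max_le (hB1E a v hv) (hB2E a v hv))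
  have hh0 : ∀ a, 0 ≤ hgt (x a) := fun a => by
    unfold hgt
    exact div_nonneg (Height.logHeight_nonneg _) (Nat.cast_nonneg _)
  obtain ⟨A, K3, hA0', hkey⟩ : ∃ A K3 : ℝ, 0 ≤ A ∧ ∀ a : ℕ,
      (a : ℝ) + (1 + ε) * hgt (x (φ a)) ≤ A * hgt (x (φ a)) + K3 := by
    have hL : ∀ v i, ∃ C : ℝ, 0 ≤ C ∧ (v ∈ S → ∀ a, ∑ g, (Γ a v i g + C0 i) ≤
        (∑ j, d i j : ℕ) * (cG * hgt (x (φ a))) + C) := by
      intro v i
      obtain ⟨C, h0, h1⟩ := gamJ_sum G (d i) (f i) (hf i) {v}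
      refine ⟨C + cG * C0 i, add_nonneg h0 (mul_nonneg hc0.le (hC00 i)), fun hv a => ?_⟩
      have h2 := h1 _ (s a) (M a) (hQ' a) (y a) (hy1 a) (hyf a i)
      rw [Finset.sum_singleton, ← hH a, Finset.sum_congr rfl fun g _ => hΓ' a v i g] at h2
      rw [Finset.sum_add_distrib, Finset.sum_const, Finset.card_univ, nsmul_eq_mul, ← hcG]
      linarith
    choose C2 hC20 hC2 using hL
    obtain ⟨A1, hA1⟩ : ∃ A1 : ℝ, A1 = ∑ i, ((∑ j, d i j : ℕ) : ℝ) := ⟨_, rfl⟩
    have hA10 : 0 ≤ A1 := by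
      rw [hA1]
      exact Finset.sum_nonneg fun i _ => Nat.cast_nonneg _
    have hEv : ∀ a, ∀ v ∈ S, E a v ≤ A1 * (cG * hgt (x (φ a))) + ∑ i, C2 v i := by
      intro a v hv
      rw [← hEe, Finset.sum_comm]
      refine (Finset.sum_le_sum fun i _ => hC2 v i hv a).trans (le_of_eq ?_)
      rw [hA1, Finset.sum_mul, ← Finset.sum_add_distrib]
    refine ⟨B * (S.card * (A1 * cG)), B * ∑ v ∈ S, ∑ i, C2 v i,
      mul_nonneg hB0 (mul_nonneg (Nat.cast_nonneg _) (mul_nonneg hA10 hc0.le)), fun a => ?_⟩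
    have h1 : ∑ v ∈ S, T a v ≤ B * ∑ v ∈ S, E a v := by
      rw [Finset.mul_sum]
      exact Finset.sum_le_sum fun v hv => hTE a v hv
    have h2 : ∑ v ∈ S, E a v ≤ S.card * (A1 * (cG * hgt (x (φ a)))) + ∑ v ∈ S, ∑ i, C2 v i := by
      refine (Finset.sum_le_sum fun v hv => hEv a v hv).trans (le_of_eq ?_)
      rw [Finset.sum_add_distrib, Finset.sum_const, nsmul_eq_mul]
    have h3 := mul_le_mul_of_nonneg_left h2 hB0
    have h5 := (hbig' a).le
    have h6 : (a : ℝ) ≤ φ a := by exact_mod_cast hφa a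
    have h7 : B * (S.card * (A1 * (cG * hgt (x (φ a)))) + ∑ v ∈ S, ∑ i, C2 v i) =
        B * (S.card * (A1 * cG)) * hgt (x (φ a)) + B * ∑ v ∈ S, ∑ i, C2 v i := by ring
    linarith
  have hH1 : Tendsto (fun a => Hg (s a) (M a) (y a)) atTop atTop := by
    have h1 : ∀ a : ℕ, cG * (((a : ℝ) - K3) / (A + 1)) ≤ Hg (s a) (M a) (y a) := by
      intro a
      rw [← hH a]
      refine mul_le_mul_of_nonneg_left ?_ hc0.le
      have hq0 : (0 : ℝ) < A + 1 := by positivity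
      rw [div_le_iff₀ hq0]
      have h2 := hkey a
      have h3 : 0 ≤ (1 + ε) * hgt (x (φ a)) := mul_nonneg (by positivity) (hh0 _)
      have h4 := hh0 (φ a)
      have h5 : hgt (x (φ a)) * (A + 1) = A * hgt (x (φ a)) + hgt (x (φ a)) := by ring
      linarith
    refine tendsto_atTop_mono h1 ?_
    refine Tendsto.const_mul_atTop hc0 ?_
    refine Tendsto.atTop_div_const (by positivity) ?_
    exact tendsto_atTop_add_const_right _ _ tendsto_natCast_atTop_atTop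
  -- the data
  let D : SqG k G :=
    { U := hyperfilter ℕ
      L := fun a => gal (x (φ a))
      fL := fun a => inferInstance
      aL := fun a => inferInstance
      s := s
      N := M
      qs := hQ'
      H := fun a => Hg (s a) (M a) (y a)
      H1 := hH1.mono_left Nat.hyperfilter_le_atTop }
  let y' : ∀ a, Fin (N + 1) → D.L a := y
  have hPt : Ptg D y' := ⟨hy1, fun a => rfl⟩
  have hyI : ∀ a, ∀ p ∈ P, aeval (y' a) p = 0 := fun a p hp => (hyx a p).2 (hxI _ p hp)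
  have hyQ : ∀ a, aeval (y' a) Q ≠ 0 := fun a h => hxQ (φ a) ((hyx a Q).1 h)
  obtain ⟨ρ, hρ⟩ := exists_rep_rlx Hs
  -- the classes
  have hne : Nonempty (Fin r') := ⟨⟨0, hr'0⟩⟩
  let cl : Pl k → Fin r' → Fin r' := fun v j => Function.invFun (fun j => p 0 v (ρ j)) (p 0 v (ρ j))
  have hcl1 : ∀ v j, p 0 v (ρ (cl v j)) = p 0 v (ρ j) := fun v j =>
    Function.invFun_eq (f := fun j => p 0 v (ρ j)) ⟨j, rfl⟩
  have hcl2 : ∀ v j, cl v (cl v j) = cl v j := by
    intro v j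
    show Function.invFun _ (p 0 v (ρ (cl v j))) = Function.invFun _ _
    rw [hcl1]
  have hcl3 : ∀ a, ∀ v ∈ S, ∀ j j', cl v j = cl v j' ↔ p a v (ρ j) = p a v (ρ j') := by
    intro a v hv j j'
    rw [← hRp a v hv, hRp 0 v hv]
    constructor
    · intro h
      rw [← hcl1 v j, h, hcl1]
    · intro h
      show Function.invFun _ (p 0 v (ρ j)) = Function.invFun _ (p 0 v (ρ j'))
      rw [h]
  have hcl4 : ∀ a, ∀ v ∈ S, ∀ j, p a v (ρ (cl v j)) = p a v (ρ j) := fun a v hv j => (hcl3 a v hv _ _).1 (hcl2 v j)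
  obtain ⟨nj, hnj⟩ : ∃ nj : Pl k → Fin r' → ℕ, nj = fun v j => (Finset.univ.filter fun j' => cl v j' = j).card := ⟨_, rfl⟩
  have hnj' : ∀ v j, (Finset.univ.filter fun j' => cl v j' = j).card = nj v j := fun v j => by rw [hnj]
  have hnjr : ∀ v j, nj v j ≤ r' := by
    intro v j
    rw [← hnj']
    have h1 := Finset.card_le_univ (Finset.univ.filter fun j' => cl v j' = j)
    rwa [Fintype.card_fin] at h1
  have hnj0 : ∀ v j, 0 < nj v (cl v j) := by
    intro v j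
    rw [← hnj']
    exact Finset.card_pos.2 ⟨j, Finset.mem_filter.2 ⟨Finset.mem_univ _, rfl⟩⟩
  -- the local degrees
  have hnjl : ∀ a, ∀ v ∈ S, ∀ j, nj v (cl v j) = ldeg v (p a v (ρ (cl v j))) := by
    intro a v hv j
    have h1 := card_rep_rlx Hs ρ hρ (p a v) (fun g h hh => hph a v g h hh) (p a v (ρ (cl v j)))
    rw [hpc a v _ (hpa a v _)] at h1
    have h2 := Nat.eq_of_mul_eq_mul_left hHs0 h1
    rw [h2, ← hnj']
    congr 1
    ext j'
    simp only [Finset.mem_filter, Finset.mem_univ, true_and]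
    rw [hcl4 a v hv j, ← hcl3 a v hv]
  let ξ : Pl k → Fin r' → Option (Fin (r + 1) × Fin (r + 1)) := fun v j =>
    some (⟨nj v (cl v j), Nat.lt_succ_of_le ((hnjr v _).trans hr'r)⟩, ⟨r', Nat.lt_succ_of_le hr'r⟩)
  have hξ : ∀ v j, ξ v (cl v j) = ξ v j := by
    intro v j
    simp only [ξ, hcl2]
  have hRpm : ∀ v j, j ∈ Finset.univ.image (cl v) → cl v j = j := by
    intro v j hj
    obtain ⟨j', -, rfl⟩ := Finset.mem_image.1 hj
    exact hcl2 v j'
  have hρξ : ∀ v, ∀ j ∈ Finset.univ.image (cl v), ρz (ξ v j) = (nj v j : ℝ) / r' := by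
    intro v j hj
    have h1 := hρs (⟨nj v (cl v j), Nat.lt_succ_of_le ((hnjr v _).trans hr'r)⟩, ⟨r', Nat.lt_succ_of_le hr'r⟩)
      (hnj0 v j) (hnjr v _)
    simp only [hRpm v j hj] at h1
    show ρz (some (⟨nj v (cl v j), Nat.lt_succ_of_le ((hnjr v _).trans hr'r)⟩, ⟨r', Nat.lt_succ_of_le hr'r⟩)) = _
    simp only [hRpm v j hj]
    exact h1
  have hval : ∀ v, ∀ j ∈ Finset.univ.image (cl v), ∀ i, γ (ξ v j) i - (1 - (nj v j : ℝ) / r') * θ (ξ v j) i =
      (1 - η) * c i ((nj v j : ℝ) / r') := by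
    intro v j hj i
    have h1 := hγe (ξ v j) i
    rw [hρξ v j hj] at h1
    exact h1
  -- the subsets of the indices
  have hTv : ∀ (v : Pl k) (g : G), ∃ J : Finset (Fin q), ∀ᶠ a in (D.U : Filter ℕ), T1 (φ a) (p a v g) = J := by
    intro v g
    have h2 : ∀ᶠ a in (D.U : Filter ℕ), ∃ J : Finset (Fin q), T1 (φ a) (p a v g) = J :=
      Eventually.of_forall fun a => ⟨_, rfl⟩
    exact Ultrafilter.eventually_exists_iff.1 h2
  choose T0 hT0 using hTv
  have hT0' : ∀ᶠ a in (D.U : Filter ℕ), ∀ v ∈ S, ∀ g, T1 (φ a) (p a v g) = T0 v g := by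
    rw [Filter.eventually_all_finset]
    intro v _
    rw [Filter.eventually_all]
    exact fun g => hT0 v g
  obtain ⟨a₀, ha₀⟩ := hT0'.exists
  have hgp : ∀ v ∈ S, ∀ g, GenPos P (idl f) (T0 v g) := by
    intro v hv g
    rw [← ha₀ v hv g]
    exact hT1 _ _
  have hTh : ∀ v ∈ S, ∀ g, ∀ h ∈ Hs, T0 v (g * h) = T0 v g := by
    intro v hv g h hh
    rw [← ha₀ v hv g, ← ha₀ v hv (g * h), hph a₀ v g h hh]
  have hTc : ∀ v ∈ S, ∀ j, T0 v (ρ (cl v j)) = T0 v (ρ j) := by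
    intro v hv j
    rw [← ha₀ v hv, ← ha₀ v hv, hcl4 a₀ v hv j]
  -- the types
  have hty : ∀ v, ∃ t : Fin 3, v ∈ S → ∀ᶠ a in (D.U : Filter ℕ), T a v =
      if t = 0 then U0 a v else if t = 1 then U1 a v else U2 a v := by
    intro v
    by_cases hv : v ∈ S
    · have h1 : ∀ a, ∃ t : Fin 3, T a v = if t = 0 then U0 a v else if t = 1 then U1 a v else U2 a v := by
        intro a
        rcases max_choice (U0 a v) (max (U1 a v) (U2 a v)) with h | h
        · exact ⟨0, by simp only [if_true]; exact h⟩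
        · rcases max_choice (U1 a v) (U2 a v) with h' | h'
          · exact ⟨1, by simp only [one_ne_zero, if_false, if_true]; exact h.trans h'⟩
          · refine ⟨2, ?_⟩
            have e1 : (2 : Fin 3) ≠ 0 := by decide
            have e2 : (2 : Fin 3) ≠ 1 := by decide
            rw [if_neg e1, if_neg e2]
            exact h.trans h'
      have h2 : ∀ᶠ a in (D.U : Filter ℕ), ∃ t : Fin 3, T a v =
          if t = 0 then U0 a v else if t = 1 then U1 a v else U2 a v := Eventually.of_forall h1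
      obtain ⟨t, ht⟩ := Ultrafilter.eventually_exists_iff.1 h2
      exact ⟨t, fun _ => ht⟩
    · exact ⟨0, fun h => absurd h hv⟩
  choose ty hty using hty
  have hty' : ∀ᶠ a in (D.U : Filter ℕ), ∀ v ∈ S, T a v =
      if ty v = 0 then U0 a v else if ty v = 1 then U1 a v else U2 a v := by
    rw [Filter.eventually_all_finset]
    exact fun v hv => hty v hv
  have hcore := hcoreQ y' hPt hyI hyQ S T0 hgp hyf Hs hHy hTh g₁
    (fun v => Finset.univ.filter fun u => R v (u * g₁ v) (g₁ v)) (fun v => Finset.univ.filter fun u => ∀ g, R v (u * g) g)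
    (fun a v hv u hu z hz => hpM a v _ _ ((hRp a v hv _ _).1 (Finset.mem_filter.1 hu).2) z hz)
    (fun a v hv u hu g z hz => hpM a v _ _ ((hRp a v hv _ _).1 ((Finset.mem_filter.1 hu).2 g)) z hz)
    ρ hρ (fun v => Finset.univ.image (cl v)) cl ξ
    (fun v hv j => ⟨Finset.mem_image_of_mem _ (Finset.mem_univ j), hξ v j, hTc v hv j⟩)
    (fun v _ j hj i => by
      rw [hnj', hval v j hj i, ← hρξ v j hj]
      exact hA (ξ v j, i))
    (fun a v hv j z hz => hpM a v _ _ (hcl4 a v hv j) z hz) ty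
  obtain ⟨a, ⟨hcore, hty''⟩, hTa⟩ := ((hcore.and hty').and hT0').exists
  have hHa : D.H a = cG * hgt (x (φ a)) := (hH a).symm
  have hterm : ∀ v ∈ S, cG ^ 2 * (1 - η) * T a v =
      (if ty v = 0 then (Fintype.card G : ℝ) ^ 2 * ∑ j ∈ Finset.univ.image (cl v), ∑ i ∈ T0 v (ρ j), ((γ (ξ v j) i -
                (1 - ((Finset.univ.filter fun j' => cl v j' = j).card : ℝ) / r') * θ (ξ v j) i) *
                gamJ (D.s a) (D.N a) (y' a) (d i) (f i) v (ρ j))
        else if ty v = 1 then (Finset.univ.filter fun u => R v (u * g₁ v) (g₁ v)).card * Nat.card Hs *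
          ∑ i ∈ T0 v (g₁ v), γ none i * gamJ (D.s a) (D.N a) (y' a) (d i) (f i) v (g₁ v)
        else (Finset.univ.filter fun u => ∀ g, R v (u * g) g).card *
          ∑ g, ∑ i ∈ T0 v g, γ none i * gamJ (D.s a) (D.N a) (y' a) (d i) (f i) v g) := by
    intro v hv
    rw [hty'' v hv]
    have hΓa : ∀ i g, gamJ (D.s a) (D.N a) (y' a) (d i) (f i) v g = Γ a v i g := fun i g => hΓ' a v i g
    simp only [hΓa, hγn]
    split_ifs with h0 h1
    · rw [← hcG, mul_assoc, hU0]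
      congr 1
      rw [Finset.mul_sum]
      symm
      refine Finset.sum_bij (fun j _ => p a v (ρ j)) (fun j _ => hpa a v _) ?_ ?_ ?_
      · intro j hj j' hj' h
        rw [← hRpm v j hj, ← hRpm v j' hj']
        exact (hcl3 a v hv j j').2 h
      · intro w hw
        obtain ⟨g, rfl⟩ := hsurj a v w hw
        obtain ⟨j, hj, -⟩ := hρ g
        refine ⟨cl v j, Finset.mem_image_of_mem _ (Finset.mem_univ j), ?_⟩
        rw [hcl4 a v hv]
        have h2 := hph a v (ρ j) _ hj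
        rw [mul_inv_cancel_left] at h2
        exact h2.symm
      · intro j hj
        rw [hTa v hv (ρ j), Finset.mul_sum]
        refine Finset.sum_congr rfl fun i hi => ?_
        rw [hnj', hval v j hj i]
        have h2 := hnjl a v hv j
        rw [hRpm v j hj] at h2
        rw [h2, hΓW a v i (ρ j), mul_assoc]
    · have h2 : ((Finset.univ.filter fun u => R v (u * g₁ v) (g₁ v)).card : ℝ) = Nat.card Hs * ldeg v (p a v (g₁ v)) := by
        rw [← hpc' a v _ (hpa a v (g₁ v))]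
        congr 1
        refine Finset.card_bij' (fun u _ => u * g₁ v) (fun g _ => g * (g₁ v)⁻¹) ?_ ?_ ?_ ?_
        · intro u hu
          rw [Finset.mem_filter] at hu ⊢
          exact ⟨Finset.mem_univ _, (hRp a v hv _ _).1 hu.2⟩
        · intro g hg
          rw [Finset.mem_filter] at hg ⊢
          refine ⟨Finset.mem_univ _, ?_⟩
          rw [inv_mul_cancel_right]
          exact (hRp a v hv _ _).2 hg.2
        · intro u _
          exact mul_inv_cancel_right _ _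
        · intro g _
          exact inv_mul_cancel_right _ _
      have h4 := (hl0 a v _ (hpa a v (g₁ v))).ne'
      have h5 : ∑ i ∈ T0 v (g₁ v), (1 - η) * c i 1 * Γ a v i (g₁ v) = (1 - η) * (r' * (∑ i ∈ T0 v (g₁ v),
          c i 1 * lamJ (d i) (f i) (x (φ a)) (p a v (g₁ v))) / ldeg v (p a v (g₁ v))) := by
        rw [Finset.mul_sum, Finset.sum_div, Finset.mul_sum]
        refine Finset.sum_congr rfl fun i hi => ?_
        rw [hΓW a v i (g₁ v)]
        ring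
      rw [h2, h5, hU1, ← hpg₁ a v hv, hTa v hv (g₁ v), ← hHR]
      have h6 := alg_rlx (Nat.card Hs) r' _ (∑ i ∈ T0 v (g₁ v), c i 1 * lamJ (d i) (f i) (x (φ a)) (p a v (g₁ v)))
        hr'R0.ne' h4
      rw [mul_right_comm, h6]
      ring
    · have h2 : ((Finset.univ.filter fun u => ∀ g, R v (u * g) g).card : ℝ) * gfam (x (φ a)) v = cG := by
        have h3 := hKd a v hv
        rw [Nat.card_eq_fintype_card, Fintype.card_subtype] at h3
        rw [hcG]
        exact_mod_cast h3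
      have h6 := hgf1 a v hv
      have h7 : ((Finset.univ.filter fun u => ∀ g, R v (u * g) g).card : ℝ) = cG / gfam (x (φ a)) v := by
        rw [eq_div_iff (by linarith)]
        exact h2
      have h8 : ∑ g, ∑ i ∈ T0 v g, (1 - η) * c i 1 * Γ a v i g =
          (1 - η) * ∑ g, ∑ i ∈ T1 (φ a) (p a v g), c i 1 * Γ a v i g := by
        rw [Finset.mul_sum]
        refine Finset.sum_congr rfl fun g _ => ?_
        rw [hTa v hv g, Finset.mul_sum]
        exact Finset.sum_congr rfl fun i _ => mul_assoc _ _ _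
      rw [h7, h8, hU2 a v]
      have h9 : ∀ z g : ℝ, cG ^ 2 * (1 - η) * (z / cG / g) = cG / g * ((1 - η) * z) := by
        intro z g
        have h10 : cG ^ 2 * (1 - η) * (z / cG / g) = (cG / cG) * (cG / g * ((1 - η) * z)) := by ring
        rw [h10, div_self hc0.ne', one_mul]
      exact h9 _ _
  have hfinal := Finset.sum_congr (rfl : S = S) hterm
  rw [← Finset.mul_sum] at hfinal
  have h2 := hfinal.le.trans hcore
  rw [hHa, ← hcG] at h2
  have h3 := mul_lt_mul_of_pos_left (hbig' a) (mul_pos (pow_pos hc0 2) hη1')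
  have h4 : 0 ≤ cG ^ 2 * (1 - η) * (φ a : ℝ) := mul_nonneg (mul_pos (pow_pos hc0 2) hη1').le (Nat.cast_nonneg _)
  have h5 : cG * (1 + ε / 2) * (cG * hgt (x (φ a))) = cG ^ 2 * (1 - η) * ((1 + ε) * hgt (x (φ a))) := by
    rw [← hηε]
    ring
  rw [h5] at h2
  rw [mul_add] at h3
  linarith

end Pool.Agent.SQ.RV
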